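import Pool.Agent.H174.GP.StD
import Pool.Agent.H922.GP174.aalaw

/-!
`S_Pr` of project GP (helper174): formula for `cntD`.
-/

set_option autoImplicit false

open MeasureTheory ProbabilityTheory Finset

namespace Pool.Agent.H314.GP174

open Pool.Agent.H174.GP
open Pool.Agent.H922.GP174 (Gv law meas_Gv prod_Icc_fin)

theorem gF_eq (d : ℕ) (σ : ℝ) (ω : ℕ → ℝ) : gF d σ ω = Gv d (σ / 2) ω := by
  funext i
  unfold gF gs Gv
  have h : 2 * (σ / 2) = σ := by ring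
  rw [h]

theorem Zf_pos (d : ℕ) (σ : ℝ) (hσ : 0 < σ) : 0 < Zf d σ := by
  unfold Zf
  refine Finset.prod_pos fun j hj => ?_
  have hj1 : 1 ≤ j := (Finset.mem_Icc.1 hj).1
  have hj0 : (0 : ℝ) < j := by exact_mod_cast hj1
  have h1 : Real.exp (-(σ * j)) < 1 := by
    rw [Real.exp_lt_one_iff]
    have : 0 < σ * j := mul_pos hσ hj0
    linarith
  exact one_div_pos.2 (by linarith)

/-- the law of the vector -/
theorem lawF (h1 : S_L3) (d : ℕ) (σ : ℝ) (hσ : 0 < σ) (γ : Fin d → ℕ) :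
    PP.real (Gv d (σ / 2) ⁻¹' {γ}) =
      (Zf d σ)⁻¹ * Real.exp (-(σ * ((∑ i : Fin d, ((i : ℕ) + 1) * γ i : ℕ) : ℝ))) := by
  rw [law h1 d (σ / 2) (by positivity) γ, Finset.prod_mul_distrib, ← Real.exp_sum]
  congr 1
  · unfold Zf
    rw [prod_Icc_fin d (fun j => 1 / (1 - Real.exp (-(σ * (j : ℝ))))), ← Finset.prod_inv_distrib]
    refine Finset.prod_congr rfl fun i _ => ?_
    have h : 2 * (σ / 2) = σ := by ring
    rw [one_div, inv_inv, h]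
  · congr 1
    rw [Nat.cast_sum, Finset.mul_sum, ← Finset.sum_neg_distrib]
    refine Finset.sum_congr rfl fun i _ => ?_
    have h : 2 * (σ / 2) = σ := by ring
    rw [h]
    push_cast
    ring

theorem fin_data (d n : ℕ) :
    {gh : (Fin d → ℕ) × (Fin d → ℕ) |
      d ^ 2 + ∑ i : Fin d, ((i : ℕ) + 1) * (gh.1 i + gh.2 i) = n}.Finite := by
  have hfin : (Set.Iic (fun _ : Fin d => n)).Finite := Set.finite_Iic _
  refine Set.Finite.subset (hfin.prod hfin) ?_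
  rintro ⟨g, h⟩ hgh
  have h2 : d ^ 2 + ∑ i : Fin d, ((i : ℕ) + 1) * (g i + h i) = n := hgh
  have h3 : ∀ i, g i + h i ≤ n := by
    intro i
    have h4 : ((i : ℕ) + 1) * (g i + h i) ≤ ∑ i : Fin d, ((i : ℕ) + 1) * (g i + h i) :=
      Finset.single_le_sum (f := fun i : Fin d => ((i : ℕ) + 1) * (g i + h i))
        (fun _ _ => Nat.zero_le _) (Finset.mem_univ i)
    nlinarith [Nat.zero_le (g i + h i), Nat.zero_le (i : ℕ), Nat.zero_le (d ^ 2)]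
  exact ⟨fun i => (Nat.le_add_right _ _).trans (h3 i), fun i => (Nat.le_add_left _ _).trans (h3 i)⟩

theorem gp_pr (h1 : S_L3) : Pool.Agent.H174.GP.S_Pr := by
  classical
  intro d d' n σ σ' hσ hσ' hd hd'
  let A : Set (((Fin d → ℕ) × (Fin d → ℕ)) × ((Fin d' → ℕ) × (Fin d' → ℕ))) :=
    {q | d ^ 2 + ∑ i : Fin d, ((i : ℕ) + 1) * (q.1.1 i + q.1.2 i) = n ∧
      d' ^ 2 + ∑ i : Fin d', ((i : ℕ) + 1) * (q.2.1 i + q.2.2 i) = n ∧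
      DomM (toP d' q.2.1 q.2.2) (toP d q.1.1 q.1.2)}
  have hAfin : A.Finite := by
    refine Set.Finite.subset ((fin_data d n).prod (fin_data d' n)) ?_
    rintro q ⟨h2, h3, -⟩
    exact ⟨h2, h3⟩
  obtain ⟨Γ, hΓ⟩ : ∃ Γ : Finset (((Fin d → ℕ) × (Fin d → ℕ)) × ((Fin d' → ℕ) × (Fin d' → ℕ))),
      (Γ : Set _) = A := ⟨hAfin.toFinset, hAfin.coe_toFinset⟩
  have hcard : cntD d d' n = Γ.card := by
    show A.ncard = Γ.card
    rw [← hΓ, Set.ncard_coe_finset]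
  let E : (((Fin d → ℕ) × (Fin d → ℕ)) × ((Fin d' → ℕ) × (Fin d' → ℕ))) →
      Set (((ℕ → ℝ) × (ℕ → ℝ)) × ((ℕ → ℝ) × (ℕ → ℝ))) := fun a =>
    ((Gv d (σ / 2) ⁻¹' {a.1.1}) ×ˢ (Gv d' (σ' / 2) ⁻¹' {a.2.1})) ×ˢ
      ((Gv d (σ / 2) ⁻¹' {a.1.2}) ×ˢ (Gv d' (σ' / 2) ⁻¹' {a.2.2}))
  have hE : ∀ a q, q ∈ E a ↔ ((Gv d (σ / 2) q.1.1, Gv d (σ / 2) q.2.1),
      (Gv d' (σ' / 2) q.1.2, Gv d' (σ' / 2) q.2.2)) = a := by
    rintro ⟨⟨a1, a2⟩, ⟨a3, a4⟩⟩ ⟨⟨q1, q2⟩, ⟨q3, q4⟩⟩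
    constructor
    · rintro ⟨⟨e1, e2⟩, ⟨e3, e4⟩⟩
      exact Prod.ext (Prod.ext e1 e3) (Prod.ext e2 e4)
    · intro h
      have h2 := (Prod.ext_iff.1 h)
      have h3 := Prod.ext_iff.1 h2.1
      have h4 := Prod.ext_iff.1 h2.2
      exact ⟨⟨h3.1, h4.1⟩, ⟨h3.2, h4.2⟩⟩
  have hEm : ∀ a, MeasurableSet (E a) := fun a =>
    ((meas_Gv _ _ _).prod (meas_Gv _ _ _)).prod ((meas_Gv _ _ _).prod (meas_Gv _ _ _))
  have hset : {q : ((ℕ → ℝ) × (ℕ → ℝ)) × ((ℕ → ℝ) × (ℕ → ℝ)) |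
      d ^ 2 + ∑ i : Fin d, ((i : ℕ) + 1) * (gF d σ q.1.1 i + gF d σ q.2.1 i) = n ∧
      d' ^ 2 + ∑ i : Fin d', ((i : ℕ) + 1) * (gF d' σ' q.1.2 i + gF d' σ' q.2.2 i) = n ∧
      DomM (toP d' (gF d' σ' q.1.2) (gF d' σ' q.2.2)) (toP d (gF d σ q.1.1) (gF d σ q.2.1))} =
      ⋃ a ∈ Γ, E a := by
    ext q
    rw [Set.mem_iUnion₂]
    constructor
    · intro h
      have h2 : ((gF d σ q.1.1, gF d σ q.2.1), (gF d' σ' q.1.2, gF d' σ' q.2.2)) ∈ A := h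
      refine ⟨_, Finset.mem_coe.1 (hΓ ▸ h2), (hE _ _).2 ?_⟩
      rw [gF_eq, gF_eq, gF_eq, gF_eq]
    · rintro ⟨a, ha, haq⟩
      have h2 : a ∈ A := hΓ ▸ Finset.mem_coe.2 ha
      rw [hE] at haq
      rw [← haq, ← gF_eq, ← gF_eq, ← gF_eq, ← gF_eq] at h2
      exact h2
  have hdisj : (Γ : Set _).PairwiseDisjoint E := by
    intro a _ b _ hab
    refine Set.disjoint_left.2 fun q hqa hqb => hab ?_
    rw [hE] at hqa hqb
    rw [← hqa, hqb]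
  have hmeas : ∀ a ∈ Γ, Q4.real (E a) =
      ((Zf d σ) ^ 2 * (Zf d' σ') ^ 2)⁻¹ *
        (Real.exp (σ * ((n : ℝ) - (d : ℝ) ^ 2) + σ' * ((n : ℝ) - (d' : ℝ) ^ 2)))⁻¹ := by
    intro a ha
    have h2 : a ∈ A := hΓ ▸ Finset.mem_coe.2 ha
    obtain ⟨e1, e2, -⟩ := h2
    show Measure.real ((PP.prod PP).prod (PP.prod PP)) (((Gv d (σ / 2) ⁻¹' {a.1.1}) ×ˢ
      (Gv d' (σ' / 2) ⁻¹' {a.2.1})) ×ˢ
      ((Gv d (σ / 2) ⁻¹' {a.1.2}) ×ˢ (Gv d' (σ' / 2) ⁻¹' {a.2.2}))) = _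
    rw [measureReal_prod_prod, measureReal_prod_prod, measureReal_prod_prod, lawF h1 d σ hσ,
      lawF h1 d σ hσ, lawF h1 d' σ' hσ', lawF h1 d' σ' hσ']
    have e3 : (∑ i : Fin d, ((i : ℕ) + 1) * a.1.1 i) + (∑ i : Fin d, ((i : ℕ) + 1) * a.1.2 i) +
        d ^ 2 = n := by
      rw [← Finset.sum_add_distrib, add_comm, ← e1]
      congr 1
      exact Finset.sum_congr rfl fun i _ => by ring
    have e4 : (∑ i : Fin d', ((i : ℕ) + 1) * a.2.1 i) + (∑ i : Fin d', ((i : ℕ) + 1) * a.2.2 i) +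
        d' ^ 2 = n := by
      rw [← Finset.sum_add_distrib, add_comm, ← e2]
      congr 1
      exact Finset.sum_congr rfl fun i _ => by ring
    obtain ⟨s1, hs1⟩ : ∃ s : ℕ, s = ∑ i : Fin d, ((i : ℕ) + 1) * a.1.1 i := ⟨_, rfl⟩
    obtain ⟨s2, hs2⟩ : ∃ s : ℕ, s = ∑ i : Fin d, ((i : ℕ) + 1) * a.1.2 i := ⟨_, rfl⟩
    obtain ⟨s3, hs3⟩ : ∃ s : ℕ, s = ∑ i : Fin d', ((i : ℕ) + 1) * a.2.1 i := ⟨_, rfl⟩
    obtain ⟨s4, hs4⟩ : ∃ s : ℕ, s = ∑ i : Fin d', ((i : ℕ) + 1) * a.2.2 i := ⟨_, rfl⟩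
    rw [← hs1, ← hs2] at e3
    rw [← hs3, ← hs4] at e4
    rw [← hs1, ← hs2, ← hs3, ← hs4]
    have e5 : (n : ℝ) - (d : ℝ) ^ 2 = s1 + s2 := by
      have : ((s1 : ℝ) + s2) + (d : ℝ) ^ 2 = n := by exact_mod_cast e3
      linarith
    have e6 : (n : ℝ) - (d' : ℝ) ^ 2 = s3 + s4 := by
      have : ((s3 : ℝ) + s4) + (d' : ℝ) ^ 2 = n := by exact_mod_cast e4
      linarith
    rw [e5, e6, ← Real.exp_neg]
    have e7 : Real.exp (-(σ * ((s1 : ℝ) + s2) + σ' * ((s3 : ℝ) + s4))) =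
        Real.exp (-(σ * s1)) * Real.exp (-(σ * s2)) * (Real.exp (-(σ' * s3)) *
          Real.exp (-(σ' * s4))) := by
      rw [← Real.exp_add, ← Real.exp_add, ← Real.exp_add]
      congr 1
      ring
    rw [e7, mul_inv, ← inv_pow, ← inv_pow]
    ring
  rw [hset, measureReal_biUnion_finset hdisj (fun a _ => hEm a), Finset.sum_congr rfl hmeas,
    Finset.sum_const, nsmul_eq_mul, hcard]
  have hZ := (Zf_pos d σ hσ).ne'
  have hZ' := (Zf_pos d' σ' hσ').ne'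
  have he := (Real.exp_pos (σ * ((n : ℝ) - (d : ℝ) ^ 2) + σ' * ((n : ℝ) - (d' : ℝ) ^ 2))).ne'
  field_simp

end Pool.Agent.H314.GP174
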